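import Pool.Agent.Strip051.Box.C2
import Pool.Agent.Strip051.Box.S30
import Pool.Agent.Strip051.LB.Fn.F2
import Pool.Agent.Strip051.LB.Base

/-! # LINE boxes, subfamily A0p0m_pm -/

namespace Pool.Agent.Strip051.LB.A0p0m_pm

open Pool.Agent.Strip051.Box Pool.Agent.Strip051.Box2

open Pool.Agent.Strip051.LB.Fn Pool.Agent.Strip051.LB.Fn.F2

/-- coordinates of a point of the box -/
def In (b : Bx) (E : Pt) (x1 x2 : ℝ) : Prop :=
  (S : ℝ) * x1 = ((b.p1 : ℝ) - b.n1) + b.q1 * E.e1 ∧ (S : ℝ) * x2 = ((b.p2 : ℝ) - b.n2) + b.q2 * E.e2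

variable {b : Bx} {E : Pt} {x1 x2 : ℝ}

def t0 (b : Bx) : TM := X1 b
noncomputable def v0 (x1 _x2 : ℝ) : ℝ := x1
theorem h0 (h : In b E x1 x2) : Enc S E (t0 b) (v0 x1 x2) := enc_X1 h.1

def t1 (_b : Bx) : TM := tconst 1859775393 0 1
noncomputable def v1 (_x1 _x2 : ℝ) : ℝ := Real.sqrt ((3 : ℕ) : ℝ)
theorem h1 (_h : In b E x1 x2) : Enc S E (t1 b) (v1 x1 x2) := enc_sqrtn E (by decide) (by decide)

def t2 (b : Bx) : TM := tscale 1 2 (t1 b)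
noncomputable def v2 (x1 x2 : ℝ) : ℝ := ((1 : ℕ) : ℝ) / ((2 : ℕ) : ℝ) * v1 x1 x2
theorem h2 (h : In b E x1 x2) : Enc S E (t2 b) (v2 x1 x2) := enc_scale 1 (by norm_num) (h1 h)

def t3 (b : Bx) : TM := c1f_t (t0 b)
noncomputable def v3 (x1 x2 : ℝ) : ℝ := c1f_v (v0 x1 x2)
theorem h3 (h : In b E x1 x2) : Enc S E (t3 b) (v3 x1 x2) := c1f_enc (h0 h)

def t4 (b : Bx) : TM := X2 b
noncomputable def v4 (_x1 x2 : ℝ) : ℝ := x2
theorem h4 (h : In b E x1 x2) : Enc S E (t4 b) (v4 x1 x2) := enc_X2 h.2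

def t5 (b : Bx) : TM := tadd (t0 b) (t4 b)
noncomputable def v5 (x1 x2 : ℝ) : ℝ := v0 x1 x2 + v4 x1 x2
theorem h5 (h : In b E x1 x2) : Enc S E (t5 b) (v5 x1 x2) := enc_add (h0 h) (h4 h)

def t6 (b : Bx) : TM := c1f_t (t4 b)
noncomputable def v6 (x1 x2 : ℝ) : ℝ := c1f_v (v4 x1 x2)
theorem h6 (h : In b E x1 x2) : Enc S E (t6 b) (v6 x1 x2) := c1f_enc (h4 h)

def t7 (b : Bx) : TM := tneg (t6 b)
noncomputable def v7 (x1 x2 : ℝ) : ℝ := -(v6 x1 x2)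
theorem h7 (h : In b E x1 x2) : Enc S E (t7 b) (v7 x1 x2) := enc_neg (h6 h)

def t8 (b : Bx) : TM := tsub (t3 b) (t6 b)
noncomputable def v8 (x1 x2 : ℝ) : ℝ := v3 x1 x2 - v6 x1 x2
theorem h8 (h : In b E x1 x2) : Enc S E (t8 b) (v8 x1 x2) := enc_sub (h3 h) (h6 h)

def t9 (b : Bx) : TM := exf_t (t3 b) (t7 b) (t0 b) (t4 b)
noncomputable def v9 (x1 x2 : ℝ) : ℝ := exf_v (v3 x1 x2) (v7 x1 x2) (v0 x1 x2) (v4 x1 x2)
theorem h9 (h : In b E x1 x2) : Enc S E (t9 b) (v9 x1 x2) := exf_enc (h3 h) (h7 h) (h0 h) (h4 h)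

def t10 (b : Bx) : TM := tsub (t5 b) (t1 b)
noncomputable def v10 (x1 x2 : ℝ) : ℝ := v5 x1 x2 - v1 x1 x2
theorem h10 (h : In b E x1 x2) : Enc S E (t10 b) (v10 x1 x2) := enc_sub (h5 h) (h1 h)

def t11 (b : Bx) : TM := q3f_t (t8 b) (t5 b)
noncomputable def v11 (x1 x2 : ℝ) : ℝ := q3f_v (v8 x1 x2) (v5 x1 x2)
theorem h11 (h : In b E x1 x2) : Enc S E (t11 b) (v11 x1 x2) := q3f_enc (h8 h) (h5 h)

def t12 (_b : Bx) : TM := tconst (Nat.mul 1 S) 0 0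
noncomputable def v12 (_x1 _x2 : ℝ) : ℝ := ((1 : ℕ) : ℝ)
theorem h12 (_h : In b E x1 x2) : Enc S E (t12 b) (v12 x1 x2) := enc_nc E 1

def t13 (b : Bx) : TM := tsub (t12 b) (t11 b)
noncomputable def v13 (x1 x2 : ℝ) : ℝ := v12 x1 x2 - v11 x1 x2
theorem h13 (h : In b E x1 x2) : Enc S E (t13 b) (v13 x1 x2) := enc_sub (h12 h) (h11 h)

def t14 (_b : Bx) : TM := tconst (Nat.mul 3 S) 0 0
noncomputable def v14 (_x1 _x2 : ℝ) : ℝ := ((3 : ℕ) : ℝ)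
theorem h14 (_h : In b E x1 x2) : Enc S E (t14 b) (v14 x1 x2) := enc_nc E 3

def t15 (b : Bx) : TM := tsub (t11 b) (t14 b)
noncomputable def v15 (x1 x2 : ℝ) : ℝ := v11 x1 x2 - v14 x1 x2
theorem h15 (h : In b E x1 x2) : Enc S E (t15 b) (v15 x1 x2) := enc_sub (h11 h) (h14 h)

def t16 (_b : Bx) : TM := tconst (Nat.div (Nat.mul 1 S) 2) 0 1
noncomputable def v16 (_x1 _x2 : ℝ) : ℝ := ((1 : ℕ) : ℝ) / ((2 : ℕ) : ℝ)
theorem h16 (_h : In b E x1 x2) : Enc S E (t16 b) (v16 x1 x2) := enc_rat E 1 (by norm_num)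

def t17 (b : Bx) : TM := tadd (t9 b) (t16 b)
noncomputable def v17 (x1 x2 : ℝ) : ℝ := v9 x1 x2 + v16 x1 x2
theorem h17 (h : In b E x1 x2) : Enc S E (t17 b) (v17 x1 x2) := enc_add (h9 h) (h16 h)

def t18 (b : Bx) : TM := tneg (t17 b)
noncomputable def v18 (x1 x2 : ℝ) : ℝ := -(v17 x1 x2)
theorem h18 (h : In b E x1 x2) : Enc S E (t18 b) (v18 x1 x2) := enc_neg (h17 h)

def t19 (b : Bx) : TM := a1q0_t (t4 b)
noncomputable def v19 (x1 x2 : ℝ) : ℝ := a1q0_v (v4 x1 x2)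
theorem h19 (h : In b E x1 x2) : Enc S E (t19 b) (v19 x1 x2) := a1q0_enc (h4 h)

def t20 (b : Bx) : TM := tneg (t19 b)
noncomputable def v20 (x1 x2 : ℝ) : ℝ := -(v19 x1 x2)
theorem h20 (h : In b E x1 x2) : Enc S E (t20 b) (v20 x1 x2) := enc_neg (h19 h)

def t21 (b : Bx) : TM := rq2_t (t8 b) (t5 b)
noncomputable def v21 (x1 x2 : ℝ) : ℝ := rq2_v (v8 x1 x2) (v5 x1 x2)
theorem h21 (h : In b E x1 x2) : Enc S E (t21 b) (v21 x1 x2) := rq2_enc (h8 h) (h5 h)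

def t22 (b : Bx) : TM := sl202_t (t9 b) (t0 b) (t4 b) (t5 b) (t3 b) (t20 b) (t21 b)
noncomputable def v22 (x1 x2 : ℝ) : ℝ := sl202_v (v9 x1 x2) (v0 x1 x2) (v4 x1 x2) (v5 x1 x2) (v3 x1 x2) (v20 x1 x2) (v21 x1 x2)
theorem h22 (h : In b E x1 x2) : Enc S E (t22 b) (v22 x1 x2) := sl202_enc (h9 h) (h0 h) (h4 h) (h5 h) (h3 h) (h20 h) (h21 h)

def t23 (b : Bx) : TM := tsub (t5 b) (t2 b)
noncomputable def v23 (x1 x2 : ℝ) : ℝ := v5 x1 x2 - v2 x1 x2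
theorem h23 (h : In b E x1 x2) : Enc S E (t23 b) (v23 x1 x2) := enc_sub (h5 h) (h2 h)

def t24 (b : Bx) : TM := tsub (t2 b) (t5 b)
noncomputable def v24 (x1 x2 : ℝ) : ℝ := v2 x1 x2 - v5 x1 x2
theorem h24 (h : In b E x1 x2) : Enc S E (t24 b) (v24 x1 x2) := enc_sub (h2 h) (h5 h)

def t25 (b : Bx) : TM := tscale 3 4 (t1 b)
noncomputable def v25 (x1 x2 : ℝ) : ℝ := ((3 : ℕ) : ℝ) / ((4 : ℕ) : ℝ) * v1 x1 x2
theorem h25 (h : In b E x1 x2) : Enc S E (t25 b) (v25 x1 x2) := enc_scale 3 (by norm_num) (h1 h)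

def t26 (b : Bx) : TM := tsub (t25 b) (t5 b)
noncomputable def v26 (x1 x2 : ℝ) : ℝ := v25 x1 x2 - v5 x1 x2
theorem h26 (h : In b E x1 x2) : Enc S E (t26 b) (v26 x1 x2) := enc_sub (h25 h) (h5 h)

def t27 (b : Bx) : TM := tsub (t5 b) (t25 b)
noncomputable def v27 (x1 x2 : ℝ) : ℝ := v5 x1 x2 - v25 x1 x2
theorem h27 (h : In b E x1 x2) : Enc S E (t27 b) (v27 x1 x2) := enc_sub (h5 h) (h25 h)

def t28 (b : Bx) : TM := tscale 1 2 (t6 b)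
noncomputable def v28 (x1 x2 : ℝ) : ℝ := ((1 : ℕ) : ℝ) / ((2 : ℕ) : ℝ) * v6 x1 x2
theorem h28 (h : In b E x1 x2) : Enc S E (t28 b) (v28 x1 x2) := enc_scale 1 (by norm_num) (h6 h)

def t29 (b : Bx) : TM := tmul S (t2 b) (t4 b)
noncomputable def v29 (x1 x2 : ℝ) : ℝ := v2 x1 x2 * v4 x1 x2
theorem h29 (h : In b E x1 x2) : Enc S E (t29 b) (v29 x1 x2) := enc_mul hS (h2 h) (h4 h)

def t30 (b : Bx) : TM := tsub (t28 b) (t29 b)
noncomputable def v30 (x1 x2 : ℝ) : ℝ := v28 x1 x2 - v29 x1 x2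
theorem h30 (h : In b E x1 x2) : Enc S E (t30 b) (v30 x1 x2) := enc_sub (h28 h) (h29 h)

def t31 (b : Bx) : TM := tadd (t30 b) (t3 b)
noncomputable def v31 (x1 x2 : ℝ) : ℝ := v30 x1 x2 + v3 x1 x2
theorem h31 (h : In b E x1 x2) : Enc S E (t31 b) (v31 x1 x2) := enc_add (h30 h) (h3 h)

def t32 (_b : Bx) : TM := tconst (Nat.div (Nat.mul 1 S) 16) 0 1
noncomputable def v32 (_x1 _x2 : ℝ) : ℝ := ((1 : ℕ) : ℝ) / ((16 : ℕ) : ℝ)
theorem h32 (_h : In b E x1 x2) : Enc S E (t32 b) (v32 x1 x2) := enc_rat E 1 (by norm_num)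

def t33 (b : Bx) : TM := tsub (t32 b) (t31 b)
noncomputable def v33 (x1 x2 : ℝ) : ℝ := v32 x1 x2 - v31 x1 x2
theorem h33 (h : In b E x1 x2) : Enc S E (t33 b) (v33 x1 x2) := enc_sub (h32 h) (h31 h)

def t34 (b : Bx) : TM := tadd (t32 b) (t31 b)
noncomputable def v34 (x1 x2 : ℝ) : ℝ := v32 x1 x2 + v31 x1 x2
theorem h34 (h : In b E x1 x2) : Enc S E (t34 b) (v34 x1 x2) := enc_add (h32 h) (h31 h)

def t35 (b : Bx) : TM := tsub (t0 b) (t2 b)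
noncomputable def v35 (x1 x2 : ℝ) : ℝ := v0 x1 x2 - v2 x1 x2
theorem h35 (h : In b E x1 x2) : Enc S E (t35 b) (v35 x1 x2) := enc_sub (h0 h) (h2 h)

def t36 (_b : Bx) : TM := tconst (Nat.div (Nat.mul 1 S) 10) 0 1
noncomputable def v36 (_x1 _x2 : ℝ) : ℝ := ((1 : ℕ) : ℝ) / ((10 : ℕ) : ℝ)
theorem h36 (_h : In b E x1 x2) : Enc S E (t36 b) (v36 x1 x2) := enc_rat E 1 (by norm_num)

def t37 (b : Bx) : TM := tsub (t36 b) (t35 b)
noncomputable def v37 (x1 x2 : ℝ) : ℝ := v36 x1 x2 - v35 x1 x2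
theorem h37 (h : In b E x1 x2) : Enc S E (t37 b) (v37 x1 x2) := enc_sub (h36 h) (h35 h)

def t39 (b : Bx) : TM := tsub (t36 b) (t4 b)
noncomputable def v39 (x1 x2 : ℝ) : ℝ := v36 x1 x2 - v4 x1 x2
theorem h39 (h : In b E x1 x2) : Enc S E (t39 b) (v39 x1 x2) := enc_sub (h36 h) (h4 h)

def t40 (b : Bx) : TM := tsub (t36 b) (t23 b)
noncomputable def v40 (x1 x2 : ℝ) : ℝ := v36 x1 x2 - v23 x1 x2
theorem h40 (h : In b E x1 x2) : Enc S E (t40 b) (v40 x1 x2) := enc_sub (h36 h) (h23 h)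

def t41 (b : Bx) : TM := rq3_t (t8 b) (t5 b)
noncomputable def v41 (x1 x2 : ℝ) : ℝ := rq3_v (v8 x1 x2) (v5 x1 x2)
theorem h41 (h : In b E x1 x2) : Enc S E (t41 b) (v41 x1 x2) := rq3_enc (h8 h) (h5 h)

def t42 (b : Bx) : TM := sl203_t (t9 b) (t0 b) (t4 b) (t5 b) (t3 b) (t20 b) (t41 b)
noncomputable def v42 (x1 x2 : ℝ) : ℝ := sl203_v (v9 x1 x2) (v0 x1 x2) (v4 x1 x2) (v5 x1 x2) (v3 x1 x2) (v20 x1 x2) (v41 x1 x2)
theorem h42 (h : In b E x1 x2) : Enc S E (t42 b) (v42 x1 x2) := sl203_enc (h9 h) (h0 h) (h4 h) (h5 h) (h3 h) (h20 h) (h41 h)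

def t43 (b : Bx) : TM := tscale 1 4 (t1 b)
noncomputable def v43 (x1 x2 : ℝ) : ℝ := ((1 : ℕ) : ℝ) / ((4 : ℕ) : ℝ) * v1 x1 x2
theorem h43 (h : In b E x1 x2) : Enc S E (t43 b) (v43 x1 x2) := enc_scale 1 (by norm_num) (h1 h)

def t44 (b : Bx) : TM := tsub (t43 b) (t4 b)
noncomputable def v44 (x1 x2 : ℝ) : ℝ := v43 x1 x2 - v4 x1 x2
theorem h44 (h : In b E x1 x2) : Enc S E (t44 b) (v44 x1 x2) := enc_sub (h43 h) (h4 h)

def t45 (b : Bx) : TM := tsub (t4 b) (t43 b)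
noncomputable def v45 (x1 x2 : ℝ) : ℝ := v4 x1 x2 - v43 x1 x2
theorem h45 (h : In b E x1 x2) : Enc S E (t45 b) (v45 x1 x2) := enc_sub (h4 h) (h43 h)

def t46 (b : Bx) : TM := a1q1_t (t4 b)
noncomputable def v46 (x1 x2 : ℝ) : ℝ := a1q1_v (v4 x1 x2)
theorem h46 (h : In b E x1 x2) : Enc S E (t46 b) (v46 x1 x2) := a1q1_enc (h4 h)

def t47 (b : Bx) : TM := tneg (t46 b)
noncomputable def v47 (x1 x2 : ℝ) : ℝ := -(v46 x1 x2)
theorem h47 (h : In b E x1 x2) : Enc S E (t47 b) (v47 x1 x2) := enc_neg (h46 h)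

def t48 (b : Bx) : TM := sl213_t (t9 b) (t0 b) (t4 b) (t5 b) (t3 b) (t47 b) (t41 b)
noncomputable def v48 (x1 x2 : ℝ) : ℝ := sl213_v (v9 x1 x2) (v0 x1 x2) (v4 x1 x2) (v5 x1 x2) (v3 x1 x2) (v47 x1 x2) (v41 x1 x2)
theorem h48 (h : In b E x1 x2) : Enc S E (t48 b) (v48 x1 x2) := sl213_enc (h9 h) (h0 h) (h4 h) (h5 h) (h3 h) (h47 h) (h41 h)

def t50 (b : Bx) : TM := tsub (t4 b) (t2 b)
noncomputable def v50 (x1 x2 : ℝ) : ℝ := v4 x1 x2 - v2 x1 x2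
theorem h50 (h : In b E x1 x2) : Enc S E (t50 b) (v50 x1 x2) := enc_sub (h4 h) (h2 h)

def t51 (b : Bx) : TM := tsub (t2 b) (t0 b)
noncomputable def v51 (x1 x2 : ℝ) : ℝ := v2 x1 x2 - v0 x1 x2
theorem h51 (h : In b E x1 x2) : Enc S E (t51 b) (v51 x1 x2) := enc_sub (h2 h) (h0 h)

def t53 (b : Bx) : TM := tsub (t0 b) (t25 b)
noncomputable def v53 (x1 x2 : ℝ) : ℝ := v0 x1 x2 - v25 x1 x2
theorem h53 (h : In b E x1 x2) : Enc S E (t53 b) (v53 x1 x2) := enc_sub (h0 h) (h25 h)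

def g0 (b : Bx) : Bool := or (pos (t24 b)) (or (pos (t27 b)) (or (and (pos (t37 b)) (and (pos (t39 b)) (pos (t40 b)))) (or (and (pos (t33 b)) (pos (t34 b))) (pos (t22 b)))))

def l0 (b : Bx) : Nat := cond (g0 b) 0 (pickb 1 (t22 b) b)

def P0 (x1 x2 : ℝ) : Prop := 0 < v24 x1 x2 ∨ 0 < v27 x1 x2 ∨ (0 < v37 x1 x2 ∧ 0 < v39 x1 x2 ∧ 0 < v40 x1 x2) ∨ (0 < v33 x1 x2 ∧ 0 < v34 x1 x2) ∨ 0 < v22 x1 x2

theorem l0_sound (h : In b E x1 x2) (e : l0 b = 0) : P0 x1 x2 := by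
  have e1 : g0 b = true := by
    rcases e2 : g0 b with _ | _
    · unfold l0 at e; rw [e2, cond_false] at e; exact absurd e (pickb_ne _ _ _)
    · rfl
  exact ((Bool.or_eq_true_iff.mp e1).imp (fun a => pos_sound hS (h24 h) a) (fun a => ((Bool.or_eq_true_iff.mp a).imp (fun a => pos_sound hS (h27 h) a) (fun a => ((Bool.or_eq_true_iff.mp a).imp (fun a => ⟨pos_sound hS (h37 h) (Bool.and_eq_true_iff.mp a).1, ⟨pos_sound hS (h39 h) (Bool.and_eq_true_iff.mp (Bool.and_eq_true_iff.mp a).2).1, pos_sound hS (h40 h) (Bool.and_eq_true_iff.mp (Bool.and_eq_true_iff.mp a).2).2⟩⟩) (fun a => ((Bool.or_eq_true_iff.mp a).imp (fun a => ⟨pos_sound hS (h33 h) (Bool.and_eq_true_iff.mp a).1, pos_sound hS (h34 h) (Bool.and_eq_true_iff.mp a).2⟩) (fun a => pos_sound hS (h22 h) a))))))))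

def g1 (b : Bx) : Bool := or (pos (t26 b)) (or (and (pos (t33 b)) (pos (t34 b))) (pos (t42 b)))

def l1 (b : Bx) : Nat := cond (g1 b) 0 (pickb 1 (t42 b) b)

def P1 (x1 x2 : ℝ) : Prop := 0 < v26 x1 x2 ∨ (0 < v33 x1 x2 ∧ 0 < v34 x1 x2) ∨ 0 < v42 x1 x2

theorem l1_sound (h : In b E x1 x2) (e : l1 b = 0) : P1 x1 x2 := by
  have e1 : g1 b = true := by
    rcases e2 : g1 b with _ | _
    · unfold l1 at e; rw [e2, cond_false] at e; exact absurd e (pickb_ne _ _ _)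
    · rfl
  exact ((Bool.or_eq_true_iff.mp e1).imp (fun a => pos_sound hS (h26 h) a) (fun a => ((Bool.or_eq_true_iff.mp a).imp (fun a => ⟨pos_sound hS (h33 h) (Bool.and_eq_true_iff.mp a).1, pos_sound hS (h34 h) (Bool.and_eq_true_iff.mp a).2⟩) (fun a => pos_sound hS (h42 h) a))))

def g2 (b : Bx) : Bool := pos (t45 b)

def l2 (b : Bx) : Nat := cond (g2 b) 0 (cond (Nat.beq (l0 b) 0) (l1 b) (l0 b))

def P2 (x1 x2 : ℝ) : Prop := (0 < v45 x1 x2) ∨ (P0 x1 x2 ∧ P1 x1 x2)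

theorem l2_sound (h : In b E x1 x2) (e : l2 b = 0) : P2 x1 x2 := by
  unfold l2 at e
  rcases e1 : g2 b with _ | _
  · rw [e1, cond_false] at e
    have z0 : l0 b = 0 := by
      rcases e2 : Nat.beq (l0 b) 0 with _ | _
      · rw [e2, cond_false] at e; exact e
      · exact Nat.eq_of_beq_eq_true e2
    have w0 : Nat.beq (l0 b) 0 = true := by rw [z0]; rfl
    rw [w0, cond_true] at e
    have z1 : l1 b = 0 := e
    exact Or.inr ⟨l0_sound h z0, l1_sound h z1⟩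
  · exact Or.inl (pos_sound hS (h45 h) e1)

def g3 (b : Bx) : Bool := or (pos (t26 b)) (or (and (pos (t33 b)) (pos (t34 b))) (pos (t48 b)))

def l3 (b : Bx) : Nat := cond (g3 b) 0 (pickb 1 (t48 b) b)

def P3 (x1 x2 : ℝ) : Prop := 0 < v26 x1 x2 ∨ (0 < v33 x1 x2 ∧ 0 < v34 x1 x2) ∨ 0 < v48 x1 x2

theorem l3_sound (h : In b E x1 x2) (e : l3 b = 0) : P3 x1 x2 := by
  have e1 : g3 b = true := by
    rcases e2 : g3 b with _ | _
    · unfold l3 at e; rw [e2, cond_false] at e; exact absurd e (pickb_ne _ _ _)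
    · rfl
  exact ((Bool.or_eq_true_iff.mp e1).imp (fun a => pos_sound hS (h26 h) a) (fun a => ((Bool.or_eq_true_iff.mp a).imp (fun a => ⟨pos_sound hS (h33 h) (Bool.and_eq_true_iff.mp a).1, pos_sound hS (h34 h) (Bool.and_eq_true_iff.mp a).2⟩) (fun a => pos_sound hS (h48 h) a))))

def g4 (b : Bx) : Bool := or (pos (t44 b)) (pos (t50 b))

def l4 (b : Bx) : Nat := cond (g4 b) 0 (l3 b)

def P4 (x1 x2 : ℝ) : Prop := (0 < v44 x1 x2 ∨ 0 < v50 x1 x2) ∨ (P3 x1 x2)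

theorem l4_sound (h : In b E x1 x2) (e : l4 b = 0) : P4 x1 x2 := by
  unfold l4 at e
  rcases e1 : g4 b with _ | _
  · rw [e1, cond_false] at e
    have z3 : l3 b = 0 := e
    exact Or.inr (l3_sound h z3)
  · exact Or.inl (((Bool.or_eq_true_iff.mp e1).imp (fun a => pos_sound hS (h44 h) a) (fun a => pos_sound hS (h50 h) a)))

def g5 (b : Bx) : Bool := or (pos (t51 b)) (pos (t53 b))

def l5 (b : Bx) : Nat := cond (g5 b) 0 (cond (Nat.beq (l2 b) 0) (l4 b) (l2 b))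

def P5 (x1 x2 : ℝ) : Prop := (0 < v51 x1 x2 ∨ 0 < v53 x1 x2) ∨ (P2 x1 x2 ∧ P4 x1 x2)

theorem l5_sound (h : In b E x1 x2) (e : l5 b = 0) : P5 x1 x2 := by
  unfold l5 at e
  rcases e1 : g5 b with _ | _
  · rw [e1, cond_false] at e
    have z2 : l2 b = 0 := by
      rcases e2 : Nat.beq (l2 b) 0 with _ | _
      · rw [e2, cond_false] at e; exact e
      · exact Nat.eq_of_beq_eq_true e2
    have w2 : Nat.beq (l2 b) 0 = true := by rw [z2]; rfl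
    rw [w2, cond_true] at e
    have z4 : l4 b = 0 := e
    exact Or.inr ⟨l2_sound h z2, l4_sound h z4⟩
  · exact Or.inl (((Bool.or_eq_true_iff.mp e1).imp (fun a => pos_sound hS (h51 h) a) (fun a => pos_sound hS (h53 h) a)))

def g6 (b : Bx) : Bool := or (pos (t10 b)) (or (pos (t13 b)) (or (pos (t15 b)) (pos (t18 b))))

def l6 (b : Bx) : Nat := cond (g6 b) 0 (l5 b)

def P6 (x1 x2 : ℝ) : Prop := (0 < v10 x1 x2 ∨ 0 < v13 x1 x2 ∨ 0 < v15 x1 x2 ∨ 0 < v18 x1 x2) ∨ (P5 x1 x2)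

theorem l6_sound (h : In b E x1 x2) (e : l6 b = 0) : P6 x1 x2 := by
  unfold l6 at e
  rcases e1 : g6 b with _ | _
  · rw [e1, cond_false] at e
    have z5 : l5 b = 0 := e
    exact Or.inr (l5_sound h z5)
  · exact Or.inl (((Bool.or_eq_true_iff.mp e1).imp (fun a => pos_sound hS (h10 h) a) (fun a => ((Bool.or_eq_true_iff.mp a).imp (fun a => pos_sound hS (h13 h) a) (fun a => ((Bool.or_eq_true_iff.mp a).imp (fun a => pos_sound hS (h15 h) a) (fun a => pos_sound hS (h18 h) a)))))))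

def f (b : Bx) : Nat := l6 b

/-- the statement -/
def Q (x1 x2 : ℝ) : Prop := P6 x1 x2

theorem f_sound (b : Bx) (hb : f b = 0) (x1 x2 : ℝ) (hm : Mem S b x1 x2) : Q x1 x2 := by
  obtain ⟨E, h⟩ := pt_of_mem hm
  have h : In b E x1 x2 := h
  unfold f at hb
  have e := hb
  have z6 : l6 b = 0 := e
  exact (l6_sound h z6)

/-- the box -/
def b0 : Bx := ⟨1001814760, 0, 71927065, 464943848, 0, 464943850⟩

theorem chk_all {n : ℕ} {b : Bx} (h : chk f n b = true) (x1 x2 : ℝ) (hm : Mem S b x1 x2) : Q x1 x2 :=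
  chk_sound (fun b hb x1 x2 hm => f_sound b hb x1 x2 hm) n b h x1 x2 hm


end Pool.Agent.Strip051.LB.A0p0m_pm
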